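import Pool.Agent.H15.U.FIX2
import Pool.Agent.H89.U3.Stmts

/-!
# Project U3, FIX2C: the fixed point theorem with a continuous parameter
-/

namespace Pool.Agent.H15.U3

open Pool.Agent.H26.U Pool.Agent.H15.U Pool.Agent.H89.U3 Finset

set_option linter.unusedSectionVars false

variable {n : ℕ} [NeZero n]

open Classical in
/-- the target, zero at `0` -/
noncomputable def gg (r0 : ZMod n → ℂ) (x : ZMod n) : ℂ := if x = 0 then 0 else r0 x

lemma PP_split (c : Fin 4 → ZMod n) (B : ℝ) (μ : ℕ) (lam : ℝ) (r0 r : ZMod n → ℂ) (x : ZMod n) :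
    gg r0 x + PP c B μ lam (fun _ => 0) r x = PP c B μ lam r0 r x := by
  unfold gg
  by_cases hx : x = 0
  · rw [PP, if_pos hx, if_pos hx, PP, if_pos hx, add_zero]
  · rw [PP, if_neg hx, if_neg hx, PP, if_neg hx, zero_add, add_assoc]

lemma continuous_gg {T : Type} [TopologicalSpace T] {r0 : T → ZMod n → ℂ} (h : Continuous r0) :
    Continuous (fun t => gg (r0 t)) := by
  refine continuous_pi fun x => ?_
  unfold gg
  by_cases hx : x = 0
  · simp only [if_pos hx]
    exact continuous_const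
  · simp only [if_neg hx]
    exact (continuous_apply x).comp h

lemma continuous_psi {T : Type} [TopologicalSpace T] {r : T → ZMod n → ℂ} (h : Continuous r)
    (c : Fin 4 → ZMod n) (B : ℝ) (j : Fin 4) (y : ZMod n) :
    Continuous (fun t => psi c B (r t) j y) := by
  unfold psi
  refine continuous_const.mul (Complex.continuous_re.comp (continuous_finsetSum _ fun x _ => ?_))
  refine Continuous.mul ?_ continuous_const
  unfold gco
  by_cases hx : x ^ 2 ≠ 0
  · simp only [if_pos hx]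
    exact continuous_const.mul ((continuous_apply x).comp h)
  · simp only [if_neg hx]
    exact continuous_const

lemma continuous_rho {T : Type} [TopologicalSpace T] {r : T → ZMod n → ℂ} (h : Continuous r)
    (μ : ℕ) (lam : ℝ) (y : ZMod n) : Continuous (fun t => rho μ lam (r t) y) := by
  unfold rho
  refine Complex.continuous_re.comp (continuous_finsetSum _ fun x _ => ?_)
  refine Continuous.mul ?_ continuous_const
  unfold zco
  by_cases hx : x ≠ 0 ∧ x ^ 2 = 0
  · simp only [if_pos hx]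
    exact continuous_const.mul ((continuous_apply x).comp h)
  · simp only [if_neg hx]
    exact continuous_const

lemma continuous_chi {T : Type} [TopologicalSpace T] (c : ZMod n) {ψ : T → ZMod n → ℝ}
    (y : ZMod n) (h : Continuous (fun t => ψ t y)) : Continuous (fun t => chi c (ψ t) y) := by
  unfold chi
  exact continuous_const.mul (Complex.continuous_exp.comp
    (continuous_const.mul (Complex.continuous_ofReal.comp h)))

lemma continuous_fam {T : Type} [TopologicalSpace T] (m : ZMod n) (i : Fin 6)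
    {κ : T → ZMod n → ℝ} (y : ZMod n) (h : Continuous (fun t => κ t y)) :
    Continuous (fun t => fam (κ t) m i y) := by
  unfold fam
  exact continuous_const.mul (Complex.continuous_exp.comp
    (continuous_const.mul (Complex.continuous_ofReal.comp (h.mul continuous_const))))

/-- FIX2C -/
theorem FIX2C (hE : S_EXP) (hP : S_PV) (hI : S_INV) (hQ : S_QL) (hL : S_LEV) (hK : S_CK0)
    (hF : S_FAM) (hB : S_BANC) : S_FIX2C := by
  intro A1 R1
  obtain ⟨A2, hA2⟩ : ∃ A2, A2 = max A1 0 + 2 := ⟨_, rfl⟩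
  obtain ⟨R2, hR2⟩ : ∃ R2, R2 = max R1 0 := ⟨_, rfl⟩
  have hR20 : 0 ≤ R2 := by rw [hR2]; exact le_max_right _ _
  have hA20 : 0 < A2 := by
    rw [hA2]
    have := le_max_right A1 0
    linarith
  obtain ⟨A, hA⟩ : ∃ A, A = √A2 := ⟨_, rfl⟩
  have hA0 : 0 ≤ A := by rw [hA]; exact Real.sqrt_nonneg _
  have hAA : A ^ 2 = A2 := by rw [hA]; exact Real.sq_sqrt hA20.le
  obtain ⟨R, hR⟩ : ∃ R, R = R2 + 24 := ⟨_, rfl⟩
  have hR0 : 0 ≤ R := by rw [hR]; linarith
  obtain ⟨B, hB1⟩ := exists_nat_gt (32 * A ^ 2 * R)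
  have hB0 : (0 : ℝ) < B := lt_of_le_of_lt (by positivity) hB1
  obtain ⟨e0, he0⟩ : ∃ e0 : ℝ, e0 = 1 / (19200 * A ^ 2 * R * 2 + 9600 * A * 2 + 2 * A * R + 1) :=
    ⟨_, rfl⟩
  have hden : 0 < 19200 * A ^ 2 * R * 2 + 9600 * A * 2 + 2 * A * R + 1 := by positivity
  have he00 : 0 < e0 := by rw [he0]; positivity
  obtain ⟨μ0, hμ0⟩ := exists_nat_gt (2 ^ 24 / e0)
  have hμ00 : (0 : ℝ) < μ0 := lt_trans (by positivity) hμ0
  refine ⟨4 * B + 24 * 6, max (μ0 ^ 48 + 1) 2,
    fun n _ hn hn0 c hc hD hA1 T _ r0 hr0c hr0 hr1 => ?_⟩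
  have hn2 : 2 ≤ n := le_trans (le_max_right _ _) hn0
  have hn3 : μ0 ^ 48 + 1 ≤ n := le_trans (le_max_left _ _) hn0
  obtain ⟨μ, hμ, hμ1, hμ2⟩ := exists_mu n hn2
  have hμμ : μ0 < μ := by
    by_contra h
    have := Nat.pow_le_pow_left (not_lt.1 h) 48
    omega
  have hm : (0 : ℝ) < μ := by exact_mod_cast (by omega : 0 < μ)
  have hm1 : (1 : ℝ) ≤ μ := by exact_mod_cast (by omega : 1 ≤ μ)
  obtain ⟨e, he⟩ : ∃ e, e = 2 ^ 24 / (μ : ℝ) ^ 2 := ⟨_, rfl⟩
  have hepos : 0 < e := by rw [he]; positivity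
  have hee : e ≤ e0 := by
    have h1 : (2 : ℝ) ^ 24 / e0 ≤ (μ : ℝ) ^ 2 := by
      have h2 : (μ0 : ℝ) ≤ μ := by exact_mod_cast hμμ.le
      have h3 : (μ : ℝ) ≤ (μ : ℝ) ^ 2 := by
        rw [pow_two]
        exact le_mul_of_one_le_left hm.le hm1
      linarith
    rw [he, div_le_iff₀ (by positivity)]
    rw [div_le_iff₀ he00] at h1
    linarith
  have hemul : e * (19200 * A ^ 2 * R * 2 + 9600 * A * 2 + 2 * A * R + 1) ≤ 1 := by
    refine le_trans (mul_le_mul_of_nonneg_right hee hden.le) (le_of_eq ?_)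
    rw [he0]
    field_simp
  have he1 : e * (2 * A * R) ≤ 1 := by
    refine le_trans (mul_le_mul_of_nonneg_left ?_ hepos.le) hemul
    have h1 : 0 ≤ 19200 * A ^ 2 * R * 2 := by positivity
    have h2 : 0 ≤ 9600 * A * 2 := by positivity
    linarith
  have hele1 : e ≤ 1 := by
    refine le_trans ?_ hemul
    have h1 : 0 ≤ 19200 * A ^ 2 * R * 2 + 9600 * A * 2 + 2 * A * R := by positivity
    calc e = e * 1 := (mul_one e).symm
      _ ≤ _ := mul_le_mul_of_nonneg_left (by linarith) hepos.le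
  have hlam : 0 < 1 / (μ : ℝ) ^ 8 := by positivity
  have hsum : ∑ x, om c μ x ≤ A ^ 2 := by
    refine le_trans (om_sum hK c hμ hμ1 hA1) ?_
    rw [hAA, hA2]
    have := le_max_left A1 0
    linarith
  have hcond : 4 * A ^ 2 * (4 / B + 4800 * e ^ 2) * R + 2 * A * (4800 * e) < 1 := by
    have h1 : 4 * A ^ 2 * (4 / B) * R < 1 / 2 := by
      rw [show 4 * A ^ 2 * (4 / B) * R = (16 * A ^ 2 * R) / B by ring, div_lt_iff₀ hB0]
      linarith
    have h2 : 4 * A ^ 2 * (4800 * e ^ 2) * R + 2 * A * (4800 * e) ≤ 1 / 2 := by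
      have h3 : e ^ 2 ≤ e := by
        rw [pow_two]
        exact mul_le_of_le_one_left hepos.le hele1
      have h4 : 4 * A ^ 2 * (4800 * e ^ 2) * R ≤ 4 * A ^ 2 * (4800 * e) * R := by gcongr
      have h5 : e * (19200 * A ^ 2 * R * 2 + 9600 * A * 2) ≤ 1 := by
        refine le_trans (mul_le_mul_of_nonneg_left ?_ hepos.le) hemul
        have h1 : 0 ≤ 2 * A * R := by positivity
        linarith
      linarith
    calc 4 * A ^ 2 * (4 / B + 4800 * e ^ 2) * R + 2 * A * (4800 * e) =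
        4 * A ^ 2 * (4 / B) * R + (4 * A ^ 2 * (4800 * e ^ 2) * R + 2 * A * (4800 * e)) := by ring
      _ < 1 := by linarith
  obtain ⟨r, hrc, hrf⟩ := hB (ZMod n) (om c μ) (om_pos c hμ hD) T (fun t => gg (r0 t))
    (PP c B μ (1 / (μ : ℝ) ^ 8) (fun _ => 0)) A (4 / B + 4800 * e ^ 2) (4800 * e) R
    (continuous_gg hr0c) hA0 (by positivity) (by positivity) hR0 hsum
    (fun t x => by
      rw [hR, PP_split]
      exact PP_zero hF hn c hμ hμ1 hR20 (fun x hx => le_trans (hr1 t x hx) (by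
        rw [hR2]; exact le_max_left _ _)) x)
    (fun r r' hr hr' x => PP_lip hP hQ hL hF hn c hc hB0 hμ hμ1 hμ2 hD (fun _ => 0) he he1 r r'
      hr hr' x)
    hcond
  have hr : ∀ t, PP c B μ (1 / (μ : ℝ) ^ 8) (r0 t) (r t) = r t := by
    intro t
    funext x
    rw [← PP_split]
    exact congrFun (hrf t).1 x
  have hcard : Fintype.card (Fin (4 * B + 24 * 6)) =
      Fintype.card ((Fin 4 × Fin B) ⊕ (Fin 24 × Fin 6)) := by
    simp only [Fintype.card_fin, Fintype.card_sum, Fintype.card_prod]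
  obtain ⟨E, -⟩ : ∃ E : Fin (4 * B + 24 * 6) ≃ ((Fin 4 × Fin B) ⊕ (Fin 24 × Fin 6)), True :=
    ⟨Fintype.equivOfCardEq hcard, trivial⟩
  obtain ⟨v, hv⟩ : ∃ v : T → ((Fin 4 × Fin B) ⊕ (Fin 24 × Fin 6)) → ZMod n → ℂ,
      v = fun t => Sum.elim (fun p => chi (c p.1) (psi c B (r t) p.1))
        (fun p => fam (fun y => 1 / (μ : ℝ) ^ 8 + rho μ (1 / (μ : ℝ) ^ 8) (r t) y)
          (((μ ^ (p.1 : ℕ) : ℕ) : ZMod n)) p.2) := ⟨_, rfl⟩
  have hv0 : ∀ j y, Continuous (fun t => v t j y) := by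
    intro j y
    rw [hv]
    rcases j with j | j
    · simp only [Sum.elim_inl]
      exact continuous_chi _ y (continuous_psi hrc c B j.1 y)
    · simp only [Sum.elim_inr]
      exact continuous_fam _ _ y (continuous_const.add (continuous_rho hrc μ _ y))
  have hv1 : ∀ t j y, ‖v t j y‖ = 1 := by
    intro t j y
    rw [hv]
    rcases j with j | j
    · simp only [Sum.elim_inl]
      exact norm_chi _ _ _
    · simp only [Sum.elim_inr]
      exact norm_fam _ _ _ _
  refine ⟨fun t j => v t (E j), continuous_pi fun j => continuous_pi fun y => hv0 _ _,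
    fun t j y => hv1 _ _ _, fun t x hx => ?_⟩
  · rw [Equiv.sum_comp E (fun j => acf (v t j) x), Fintype.sum_sum_type, hv]
    simp only [Sum.elim_inl, Sum.elim_inr, Fintype.sum_prod_type, sum_const, card_univ,
      Fintype.card_fin, nsmul_eq_mul]
    rw [← fixed_eq hE hI hL hn c hc hB0 hμ hμ1 hD hlam (hr0 t) (hr t) hx, ← mul_sum]
    rw [Finset.sum_range (fun l => ∑ i, acf (fam (fun y => 1 / (μ : ℝ) ^ 8 +
      rho μ (1 / (μ : ℝ) ^ 8) (r t) y) (((μ ^ l : ℕ) : ZMod n)) i) x)]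
    push_cast
    ring

end Pool.Agent.H15.U3
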