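import Pool.Agent.H15.U.MAIN
import Pool.Agent.H89.MOD.Loc
import Pool.Agent.H89.U3.Stmts

/-!
# Project U3, WFAM: the sequences with free phases
-/

namespace Pool.Agent.H15.U3

open Pool.Agent.H26.U Pool.Agent.H15.U Pool.Agent.H89.U3 Pool.Agent.H89.MOD Finset Topology

/-- the sequences with free phases -/
noncomputable def bs {n d : ℕ} {O : Type} (b : O → ZMod n → ℂ) (E : O × ZMod n ≃ Fin d)
    (s : Fin d → ℝ) (o : O) (y : ZMod n) : ℂ := b o y * Complex.exp (Complex.I * (s (E (o, y)) : ℝ))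

lemma continuous_bs {n d : ℕ} {O : Type} (b : O → ZMod n → ℂ) (E : O × ZMod n ≃ Fin d) (o : O)
    (y : ZMod n) : Continuous (fun s => bs b E s o y) := by
  unfold bs
  exact continuous_const.mul (Complex.continuous_exp.comp
    (continuous_const.mul (Complex.continuous_ofReal.comp (continuous_apply _))))

lemma norm_bs {n d : ℕ} {O : Type} {b : O → ZMod n → ℂ} (hb : ∀ o y, ‖b o y‖ = 1)
    (E : O × ZMod n ≃ Fin d) (s : Fin d → ℝ) (o : O) (y : ZMod n) : ‖bs b E s o y‖ = 1 := by
  rw [bs, norm_mul, hb, norm_expI, one_mul]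

lemma bs_zero {n d : ℕ} {O : Type} (b : O → ZMod n → ℂ) (E : O × ZMod n ≃ Fin d) (o : O) :
    bs b E 0 o = b o := by
  funext y
  simp [bs]

lemma exp_inj {a a' : ℝ} (ha : |a| < 1) (ha' : |a'| < 1)
    (h : Complex.exp (Complex.I * (a : ℂ)) = Complex.exp (Complex.I * (a' : ℂ))) : a = a' := by
  have hpi := Real.pi_gt_three
  rw [abs_lt] at ha ha'
  have h1 : Complex.arg (Complex.exp (Complex.I * (a : ℂ))) = a := by
    rw [mul_comm, Complex.exp_mul_I]
    exact Complex.arg_cos_add_sin_mul_I (by constructor <;> linarith)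
  have h2 : Complex.arg (Complex.exp (Complex.I * (a' : ℂ))) = a' := by
    rw [mul_comm, Complex.exp_mul_I]
    exact Complex.arg_cos_add_sin_mul_I (by constructor <;> linarith)
  rw [← h1, ← h2, h]

lemma continuous_acf {n : ℕ} [NeZero n] {T : Type} [TopologicalSpace T] {f : T → ZMod n → ℂ}
    (h : ∀ y, Continuous (fun t => f t y)) (x : ZMod n) : Continuous (fun t => acf (f t) x) := by
  unfold acf
  exact continuous_finsetSum _ fun y _ => (h y).mul (h (y - x)).star

/-- WFAM -/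
theorem WFAM (hE : S_EXP) (hF : S_FIX2C) (hU : S_UNI2) (hC : S_CRN) : S_WFAM := by
  obtain ⟨R0, hR0⟩ := hC
  obtain ⟨A1, hA1⟩ := hU
  obtain ⟨K, n0, hK⟩ := hF A1 (R0 + 1)
  refine ⟨K, max n0 3, fun n _ hn h3 p => ?_⟩
  have h3' : 3 ≤ n := le_trans (le_max_right _ _) h3
  obtain ⟨U, V, w, hU1, hV1, hw, hr⟩ := hR0 n hn h3'
  obtain ⟨c, hc, hD, hc1⟩ := hA1 n hn h3'
  obtain ⟨E, -⟩ : ∃ E : Option (Fin p) × ZMod n ≃ Fin ((p + 1) * n), True :=
    ⟨Fintype.equivOfCardEq (by simp [ZMod.card]), trivial⟩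
  obtain ⟨b, hb⟩ : ∃ b : Option (Fin p) → ZMod n → ℂ,
      b = fun o => o.elim w (fun _ => fun y => ez (y ^ 2)) := ⟨_, rfl⟩
  have hb1 : ∀ o y, ‖b o y‖ = 1 := by
    intro o y
    rw [hb]
    rcases o with _ | o
    · exact hw y
    · exact Pool.Agent.H15.U.norm_ez _
  obtain ⟨r0, hr0⟩ : ∃ r0 : (Fin ((p + 1) * n) → ℝ) → ZMod n → ℂ,
      r0 = fun s x => acf U x + acf V x + ∑ o, acf (bs b E s o) x := ⟨_, rfl⟩
  have hr0c : Continuous r0 := by
    rw [hr0]
    exact continuous_pi fun x => continuous_const.add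
      (continuous_finsetSum _ fun o _ => continuous_acf (fun y => continuous_bs b E o y) x)
  have hr00 : ∀ x, x ≠ 0 → ‖r0 0 x‖ ≤ R0 := by
    intro x hx
    rw [hr0]
    simp only [bs_zero, Fintype.sum_option, hb, Option.elim_none, Option.elim_some]
    rw [acf_chirp hE hn x hx, sum_const_zero, add_zero]
    exact hr x hx
  obtain ⟨W, hW⟩ : ∃ W : Set (Fin ((p + 1) * n) → ℝ),
      W = {s | (∀ x, x ≠ 0 → ‖r0 s x‖ < R0 + 1) ∧ ∀ i, |s i| < 1} := ⟨_, rfl⟩
  have hWo : IsOpen W := by
    have e : W = (⋂ x : ZMod n, {s | x ≠ 0 → ‖r0 s x‖ < R0 + 1}) ∩ ⋂ i, {s | |s i| < 1} := by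
      rw [hW]
      ext s
      simp
    rw [e]
    refine IsOpen.inter (isOpen_iInter_of_finite fun x => ?_) (isOpen_iInter_of_finite fun i => ?_)
    · by_cases hx : x = 0
      · simp [hx]
      · simp only [ne_eq, hx, not_false_eq_true, forall_const]
        exact isOpen_lt ((continuous_apply x).comp hr0c).norm continuous_const
    · exact isOpen_lt (continuous_apply i).abs continuous_const
  have h0W : (0 : Fin ((p + 1) * n) → ℝ) ∈ W := by
    rw [hW]
    refine ⟨fun x hx => lt_of_le_of_lt (hr00 x hx) (by linarith), fun i => ?_⟩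
    rw [Pi.zero_apply, abs_zero]
    norm_num
  obtain ⟨u, hu, hui, huW⟩ := exists_shrink hWo h0W
  obtain ⟨v, hv, hv1, hv2⟩ := hK n hn (le_trans (le_max_left _ _) h3) c hc hD hc1
    (Fin ((p + 1) * n) → ℝ) (fun t => r0 (u t)) (hr0c.comp hu)
    (fun t x => by rw [hr0]; simp only [acf_neg, star_add, star_sum])
    (fun t x hx => by
      have h1 := huW t
      rw [hW] at h1
      exact (h1.1 x hx).le)
  have hcard : Fintype.card (Fin (K + 1 + p)) = Fintype.card (Option (Fin p) ⊕ Fin K) := by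
    simp only [Fintype.card_fin, Fintype.card_sum, Fintype.card_option]
    omega
  obtain ⟨F, -⟩ : ∃ F : Fin (K + 1 + p) ≃ (Option (Fin p) ⊕ Fin K), True :=
    ⟨Fintype.equivOfCardEq hcard, trivial⟩
  obtain ⟨z, hz⟩ : ∃ z : (Fin ((p + 1) * n) → ℝ) → (Option (Fin p) ⊕ Fin K) → ZMod n → ℂ,
      z = fun t => Sum.elim (fun o => bs b E (u t) o) (fun j => v t j) := ⟨_, rfl⟩
  refine ⟨U, V, fun t j => z t (F j), hU1, hV1, ?_, ?_, ?_, ?_⟩
  · refine continuous_pi fun j => continuous_pi fun y => ?_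
    rw [hz]
    rcases F j with o | o
    · simp only [Sum.elim_inl]
      exact (continuous_bs b E o y).comp hu
    · simp only [Sum.elim_inr]
      exact (continuous_apply y).comp ((continuous_apply o).comp hv)
  · intro t t' h
    apply hui
    funext i
    have h1 := congrFun (congrFun h (F.symm (Sum.inl (E.symm i).1))) (E.symm i).2
    simp only [hz, Equiv.apply_symm_apply, Sum.elim_inl, bs] at h1
    have h2 := mul_left_cancel₀ (by
      intro h2
      have h3 := hb1 (E.symm i).1 (E.symm i).2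
      rw [h2, norm_zero] at h3
      exact zero_ne_one h3) h1
    have h4 := huW t
    have h5 := huW t'
    rw [hW] at h4 h5
    have h6 := exp_inj (h4.2 _) (h5.2 _) h2
    simpa using h6
  · intro t j y
    have h1 : ∀ q, ‖z t q y‖ = 1 := by
      intro q
      rw [hz]
      rcases q with o | o
      · exact norm_bs hb1 E _ o y
      · exact hv1 t o y
    exact h1 (F j)
  · intro t x hx
    have h1 := hv2 t x hx
    rw [Equiv.sum_comp F (fun j => acf (z t j) x), Fintype.sum_sum_type, hz]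
    simp only [Sum.elim_inl, Sum.elim_inr]
    rw [hr0] at h1
    rw [← h1]
    ring

end Pool.Agent.H15.U3
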